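import Mathlib

set_option autoImplicit false

universe u

namespace Pool.Agent.Results.MP_d29ee2_al.Universal

/-- A group with a linear order is an ordered group when the order is invariant under
multiplication on both sides. -/
def IsOrderedGroup (G : Type u) [Group G] [LinearOrder G] : Prop :=
  ∀ a b c : G, a ≤ b → c * a ≤ c * b ∧ a * c ≤ b * c

/-- Every element has an `n`-th root for every `n ≥ 1`. -/
def IsDivisible (G : Type u) [Group G] : Prop :=
  ∀ (d : G) (n : ℕ), 1 ≤ n → ∃ x : G, x ^ n = d

/-- An order-embedding: an injective homomorphism with `a ≤ b` iff `f a ≤ f b`. -/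
def IsOrderEmb {G H : Type u} [Group G] [LinearOrder G] [Group H] [LinearOrder H]
    (f : G →* H) : Prop :=
  Function.Injective f ∧ ∀ a b : G, a ≤ b ↔ f a ≤ f b

/-- A subgroup is isolated when it contains `g` as soon as it contains some `g ^ n`, `n ≥ 1`. -/
def IsIsolated {T : Type u} [Group T] (J : Subgroup T) : Prop :=
  ∀ (g : T) (n : ℕ), 1 ≤ n → g ^ n ∈ J → g ∈ J

/-- The isolator: the smallest isolated subgroup containing `S` (the intersection of all of
them). -/
def isolator {T : Type u} [Group T] (S : Subgroup T) : Subgroup T :=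
  sInf {J | S ≤ J ∧ IsIsolated J}

/-- `ι : G →* H` makes `H` a minimal divisible completion of the ordered group `G`. -/
structure IsMinDivCompletion {G H : Type u} [Group G] [LinearOrder G] [Group H] [LinearOrder H]
    (ι : G →* H) : Prop where
  ordered : IsOrderedGroup H
  divisible : IsDivisible H
  emb : IsOrderEmb ι
  minimal : isolator ι.range = ⊤

section basics

variable {G : Type u} [Group G] [LinearOrder G]

lemma mul_lt_left (h : IsOrderedGroup G) {a b : G} (c : G) (hab : a < b) : c * a < c * b :=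
  lt_of_le_of_ne (h a b c hab.le).1 (fun e => hab.ne (mul_left_cancel e))

lemma mul_lt_right (h : IsOrderedGroup G) {a b : G} (c : G) (hab : a < b) : a * c < b * c :=
  lt_of_le_of_ne (h a b c hab.le).2 (fun e => hab.ne (mul_right_cancel e))

lemma pow_mono (h : IsOrderedGroup G) {a b : G} (hab : a ≤ b) (n : ℕ) : a ^ n ≤ b ^ n := by
  induction n with
  | zero => simp
  | succ n ih =>
    rw [pow_succ, pow_succ]
    exact ((h _ _ a ih).2).trans ((h _ _ (b ^ n) hab).1)

lemma pow_lt (h : IsOrderedGroup G) {a b : G} (hab : a < b) (n : ℕ) : a ^ (n + 1) < b ^ (n + 1) := by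
  rw [pow_succ, pow_succ]
  exact ((h _ _ a (pow_mono h hab.le n)).2).trans_lt (mul_lt_left h (b ^ n) hab)

lemma pow_inj (h : IsOrderedGroup G) {a b : G} (n : ℕ) (hn : 1 ≤ n) (hab : a ^ n = b ^ n) :
    a = b := by
  obtain ⟨m, rfl⟩ : ∃ m, n = m + 1 := ⟨n - 1, by omega⟩
  rcases lt_trichotomy a b with h1 | h1 | h1
  · exact absurd hab (pow_lt h h1 m).ne
  · exact h1
  · exact absurd hab.symm (pow_lt h h1 m).ne

end basics

/-- Terms built from elements of `G` by the group operations and roots. -/
inductive Tm (G : Type u) : Type u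
  | of : G → Tm G
  | one : Tm G
  | mul : Tm G → Tm G → Tm G
  | inv : Tm G → Tm G
  | root : ℕ → Tm G → Tm G

/-- bundled completions -/
structure Compl (G : Type u) [Group G] [LinearOrder G] where
  H : Type u
  [grp : Group H]
  [ord : LinearOrder H]
  ι : G →* H
  is : IsMinDivCompletion ι

attribute [instance] Compl.grp Compl.ord

section main

variable {G : Type u} [Group G] [LinearOrder G]

noncomputable def ev (c : Compl G) : Tm G → c.H
  | .of g => c.ι g
  | .one => 1
  | .mul a b => ev c a * ev c b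
  | .inv a => (ev c a)⁻¹
  | .root n a => Classical.choose (c.is.divisible (ev c a) (n + 1) (Nat.succ_le_succ (Nat.zero_le n)))

lemma ev_root (c : Compl G) (n : ℕ) (a : Tm G) : (ev c (.root n a)) ^ (n + 1) = ev c a :=
  Classical.choose_spec (c.is.divisible (ev c a) (n + 1) (Nat.succ_le_succ (Nat.zero_le n)))

lemma mem_of_isolated {T : Type u} [Group T] (S J : Subgroup T) (hS : isolator S = ⊤) (h1 : S ≤ J)
    (h2 : IsIsolated J) (x : T) : x ∈ J := by
  have h3 : isolator S ≤ J := sInf_le ⟨h1, h2⟩
  rw [hS] at h3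
  exact h3 (Subgroup.mem_top x)

lemma ev_surj (c : Compl G) : Function.Surjective (ev c) := by
  let J : Subgroup c.H :=
    { carrier := Set.range (ev c)
      one_mem' := ⟨.one, rfl⟩
      mul_mem' := by
        rintro _ _ ⟨a, rfl⟩ ⟨b, rfl⟩
        exact ⟨.mul a b, rfl⟩
      inv_mem' := by
        rintro _ ⟨a, rfl⟩
        exact ⟨.inv a, rfl⟩ }
  intro x
  apply mem_of_isolated c.ι.range J c.is.minimal
  · rintro _ ⟨g, rfl⟩
    exact ⟨.of g, rfl⟩
  · rintro g n hn ⟨t, ht⟩
    refine ⟨.root (n - 1) t, ?_⟩
    apply pow_inj c.is.ordered n hn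
    have := ev_root c (n - 1) t
    rw [show n - 1 + 1 = n by omega] at this
    rw [this, ht]

variable (G) in
instance st : Setoid (Tm G) where
  r a b := ∀ c : Compl G, ev c a = ev c b
  iseqv := ⟨fun _ _ => rfl, fun h c => (h c).symm, fun h1 h2 c => (h1 c).trans (h2 c)⟩

variable (G) in
def K : Type u := Quotient (st G)

noncomputable def pr (c : Compl G) : K G → c.H := Quotient.lift (ev c) (fun _ _ h => h c)

def mk (t : Tm G) : K G := Quotient.mk (st G) t

lemma pr_mk (c : Compl G) (t : Tm G) : pr c (mk t) = ev c t := rfl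

lemma K_ext (a b : K G) (h : ∀ c, pr c a = pr c b) : a = b := by
  induction a using Quotient.inductionOn with
  | h a =>
  induction b using Quotient.inductionOn with
  | h b =>
  exact Quotient.sound (fun c => h c)

instance : Mul (K G) := ⟨Quotient.lift₂ (fun a b => mk (.mul a b)) (by
  intro a b a' b' ha hb
  apply Quotient.sound
  intro c
  change ev c a * ev c b = ev c a' * ev c b'
  rw [ha c, hb c])⟩
instance : One (K G) := ⟨mk .one⟩
instance : Inv (K G) := ⟨Quotient.lift (fun a => mk (.inv a)) (by
  intro a a' ha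
  apply Quotient.sound
  intro c
  change (ev c a)⁻¹ = (ev c a')⁻¹
  rw [ha c])⟩

lemma pr_mul (c : Compl G) (a b : K G) : pr c (a * b) = pr c a * pr c b := by
  induction a using Quotient.inductionOn with
  | h a =>
  induction b using Quotient.inductionOn with
  | h b => rfl
lemma pr_one (c : Compl G) : pr c (1 : K G) = 1 := rfl
lemma pr_inv (c : Compl G) (a : K G) : pr c (a⁻¹) = (pr c a)⁻¹ := by
  induction a using Quotient.inductionOn with
  | h a => rfl

instance : Group (K G) := Group.ofLeftAxioms
  (by intro a b c; apply K_ext; intro d; simp only [pr_mul, mul_assoc])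
  (by intro a; apply K_ext; intro d; simp only [pr_mul, pr_one, one_mul])
  (by intro a; apply K_ext; intro d; simp only [pr_mul, pr_one, pr_inv, inv_mul_cancel])

noncomputable def prHom (c : Compl G) : K G →* c.H where
  toFun := pr c
  map_one' := pr_one c
  map_mul' := pr_mul c

variable (G) in
def κ : G →* K G where
  toFun g := mk (.of g)
  map_one' := by
    apply K_ext; intro c
    exact map_one c.ι
  map_mul' a b := by
    apply K_ext; intro c
    exact map_mul c.ι a b

lemma pr_κ (c : Compl G) (g : G) : pr c (κ G g) = c.ι g := rfl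

lemma pr_surj (c : Compl G) : Function.Surjective (prHom c) := by
  intro x
  obtain ⟨t, ht⟩ := ev_surj c x
  exact ⟨mk t, ht⟩

lemma mk_root (n : ℕ) (t : Tm G) : (mk (.root n t) : K G) ^ (n + 1) = mk t := by
  apply K_ext
  intro c
  have h := map_pow (prHom c) (mk (.root n t)) (n + 1)
  change pr c _ = _ at h
  rw [h]
  exact ev_root c n t

lemma K_div : IsDivisible (K G) := by
  intro d n hn
  induction d using Quotient.inductionOn with
  | h t =>
  refine ⟨mk (.root (n - 1) t), ?_⟩
  have := mk_root (n - 1) t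
  rw [show n - 1 + 1 = n by omega] at this
  exact this

lemma K_min : isolator (κ G).range = ⊤ := by
  rw [eq_top_iff]
  apply le_sInf
  rintro J ⟨h1, h2⟩ x -
  induction x using Quotient.inductionOn with
  | h t =>
  change mk t ∈ J
  induction t with
  | of g => exact h1 ⟨g, rfl⟩
  | one => exact J.one_mem
  | mul a b ha hb => exact J.mul_mem ha hb
  | inv a ha => exact J.inv_mem ha
  | root n a ha =>
    apply h2 _ (n + 1) (by omega)
    rw [mk_root]; exact ha

/-! the order -/

variable (G) in
def Ω : Type u := {R : Tm G → Tm G → Prop // ∃ c : Compl G, ∀ a b, R a b ↔ ev c a ≤ ev c b}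

noncomputable def cω (ω : Ω G) : Compl G := ω.2.choose
lemma cω_spec (ω : Ω G) (a b : Tm G) : ω.1 a b ↔ ev (cω ω) a ≤ ev (cω ω) b := ω.2.choose_spec a b

lemma K_ext' (a b : K G) (h : ∀ ω : Ω G, pr (cω ω) a = pr (cω ω) b) : a = b := by
  apply K_ext
  intro c
  induction a using Quotient.inductionOn with
  | h a =>
  induction b using Quotient.inductionOn with
  | h b =>
  change ev c a = ev c b
  let ω : Ω G := ⟨fun a b => ev c a ≤ ev c b, c, fun _ _ => Iff.rfl⟩
  have h1 : ev (cω ω) a = ev (cω ω) b := h ω
  have h2 : ω.1 a b := (cω_spec ω a b).mpr h1.le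
  have h3 : ω.1 b a := (cω_spec ω b a).mpr h1.ge
  exact le_antisymm h2 h3

noncomputable def toPi (a : K G) : ∀ ω : Ω G, (cω ω).H := fun ω => pr (cω ω) a

lemma toPi_inj : Function.Injective (toPi (G := G)) := fun a b h => K_ext' a b (fun ω => congrFun h ω)

end main

/-- Every ordered group that embeds in a divisible ordered group has a minimal divisible
completion which maps onto every minimal divisible completion by a homomorphism fixing the group
pointwise. -/
theorem result (G : Type u) [Group G] [LinearOrder G] (_hG : IsOrderedGroup G)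
    (hD : ∃ (D : Type u) (_ : Group D) (_ : LinearOrder D),
      IsOrderedGroup D ∧ IsDivisible D ∧ ∃ f : G →* D, IsOrderEmb f) :
    ∃ (K : Type u) (_ : Group K) (_ : LinearOrder K) (κ : G →* K),
      IsMinDivCompletion κ ∧
      ∀ (H : Type u) [Group H] [LinearOrder H] (ι : G →* H), IsMinDivCompletion ι →
        ∃ φ : K →* H, Function.Surjective φ ∧ ∀ g : G, φ (κ g) = ι g := by
  classical
  -- one completion
  obtain ⟨D, gD, oD, hDo, hDd, f, hf⟩ := hD
  let I : Subgroup D := isolator f.range
  have hIsol : IsIsolated I := by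
    intro g n hn hg
    have hg' : ∀ J ∈ {J : Subgroup D | f.range ≤ J ∧ IsIsolated J}, g ^ n ∈ J :=
      Subgroup.mem_sInf.mp hg
    refine Subgroup.mem_sInf.mpr ?_
    intro J hJ
    exact hJ.2 g n hn (hg' J hJ)
  have hfI : ∀ g, f g ∈ I := by
    intro g
    refine Subgroup.mem_sInf.mpr ?_
    intro J hJ
    exact hJ.1 ⟨g, rfl⟩
  let ι0 : G →* I := f.codRestrict I hfI
  have hι0 : IsMinDivCompletion ι0 := by
    refine ⟨?_, ?_, ?_, ?_⟩
    · intro a b c hab
      exact ⟨(hDo a b c hab).1, (hDo a b c hab).2⟩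
    · intro d n hn
      obtain ⟨x, hx⟩ := hDd d n hn
      refine ⟨⟨x, hIsol x n hn (by rw [hx]; exact d.2)⟩, ?_⟩
      apply Subtype.ext
      exact hx
    · refine ⟨fun a b h => hf.1 (congrArg Subtype.val h), fun a b => hf.2 a b⟩
    · rw [eq_top_iff]
      apply le_sInf
      rintro J ⟨h1, h2⟩ x -
      have h3 : I ≤ J.map I.subtype := by
        apply sInf_le
        refine ⟨?_, ?_⟩
        · rintro _ ⟨g, rfl⟩
          exact ⟨ι0 g, h1 ⟨g, rfl⟩, rfl⟩
        · rintro g n hn ⟨y, hy, hyg⟩
          have hgI : g ∈ I := by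
            apply hIsol g n hn
            rw [← hyg]; exact y.2
          refine ⟨⟨g, hgI⟩, ?_, rfl⟩
          apply h2 _ n hn
          have : (⟨g, hgI⟩ : I) ^ n = y := by
            apply Subtype.ext
            exact hyg.symm
          rw [this]; exact hy
      obtain ⟨y, hy, hyx⟩ := h3 x.2
      have : y = x := Subtype.ext hyx
      rw [← this]; exact hy
  let c0 : Compl G := ⟨I, ι0, hι0⟩
  let ω0 : Ω G := ⟨fun a b => ev c0 a ≤ ev c0 b, c0, fun _ _ => Iff.rfl⟩
  obtain ⟨oΩ, wΩ⟩ := exists_wellOrder (Ω G)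
  letI oK : LinearOrder (K G) := LinearOrder.lift' (fun a : K G => toLex (toPi a))
    (fun a b h => toPi_inj (toLex_inj.mp h))
  have lt_iff : ∀ a b : K G, a < b ↔ ∃ i : Ω G, (∀ j < i, pr (cω j) a = pr (cω j) b) ∧
      pr (cω i) a < pr (cω i) b := by
    intro a b
    exact Iff.rfl
  have hord : IsOrderedGroup (K G) := by
    intro a b c hab
    rcases hab.eq_or_lt with h | h
    · rw [h]; exact ⟨le_refl _, le_refl _⟩
    · rw [lt_iff] at h
      obtain ⟨i, h1, h2⟩ := h
      constructor
      · apply le_of_lt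
        rw [lt_iff]
        refine ⟨i, fun j hj => ?_, ?_⟩
        · rw [pr_mul, pr_mul, h1 j hj]
        · rw [pr_mul, pr_mul]
          exact mul_lt_left (cω i).is.ordered _ h2
      · apply le_of_lt
        rw [lt_iff]
        refine ⟨i, fun j hj => ?_, ?_⟩
        · rw [pr_mul, pr_mul, h1 j hj]
        · rw [pr_mul, pr_mul]
          exact mul_lt_right (cω i).is.ordered _ h2
  have hκlt : ∀ a b : G, a < b → κ G a < κ G b := by
    intro a b hab
    rw [lt_iff]
    refine ⟨WellFounded.min wΩ.wf Set.univ ⟨ω0, trivial⟩, ?_, ?_⟩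
    · intro j hj
      exact absurd hj (WellFounded.not_lt_min wΩ.wf _ (Set.mem_univ j))
    · rw [pr_κ, pr_κ]
      set c := cω (WellFounded.min wΩ.wf Set.univ ⟨ω0, trivial⟩)
      exact lt_of_le_of_ne ((c.is.emb.2 a b).mp hab.le) (fun e => hab.ne (c.is.emb.1 e))
  have hemb : IsOrderEmb (κ G) := by
    refine ⟨?_, ?_⟩
    · intro a b h
      rcases lt_trichotomy a b with h1 | h1 | h1
      · exact absurd h (hκlt _ _ h1).ne
      · exact h1
      · exact absurd h.symm (hκlt _ _ h1).ne
    · intro a b
      constructor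
      · intro h
        rcases h.eq_or_lt with h1 | h1
        · rw [h1]
        · exact (hκlt _ _ h1).le
      · intro h
        by_contra h1
        exact absurd h (not_le.mpr (hκlt _ _ (not_le.mp h1)))
  refine ⟨K G, inferInstance, oK, κ G, ⟨hord, K_div, hemb, K_min⟩, ?_⟩
  intro H _ _ ι hι
  let c : Compl G := ⟨H, ι, hι⟩
  exact ⟨prHom c, pr_surj c, fun g => rfl⟩

end Pool.Agent.Results.MP_d29ee2_al.Universal
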